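import Pool.Agent.N928.FG.Stm

/-!
# Project FG (helper928), leaf CANC: cancellation in the free product (helper413)
-/

set_option autoImplicit false

namespace Pool.Agent.N413.FGCANC

open Pool.Agent.Helper125 Pool.Agent.Helper125.Gam Pool.Agent.N928.FG

section lists

variable {G : Type} [Group G]

/-- inverse of a list of letters -/
def iv (l : List (Lt G)) : List (Lt G) := (l.map (fun x => (⟨x.1, x.2⁻¹⟩ : Lt G))).reverse

theorem ev_iv (l : List (Lt G)) : ev (iv l) = (ev l)⁻¹ := ev_inv l

theorem iv_length (l : List (Lt G)) : (iv l).length = l.length := by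
  unfold iv
  rw [List.length_reverse, List.length_map]

theorem red_iff (l : List (Lt G)) :
    Red l ↔ (∀ x ∈ l, x.2 ≠ 1) ∧ (l.map Sigma.fst).IsChain (fun a b => a ≠ b) := by
  unfold Red
  rw [List.isChain_map]

theorem Red.left {l l' : List (Lt G)} (h : Red (l ++ l')) : Red l := by
  refine ⟨fun x hx => h.1 x (List.mem_append_left _ hx), ?_⟩
  exact (List.isChain_append.1 h.2).1

theorem Red.right {l l' : List (Lt G)} (h : Red (l ++ l')) : Red l' := by
  refine ⟨fun x hx => h.1 x (List.mem_append_right _ hx), ?_⟩
  exact (List.isChain_append.1 h.2).2.1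

theorem cancel (U : List (Lt G)) : ∀ V : List (Lt G), Red U → Red V →
    ∃ P Γ Q : List (Lt G), (U = P ++ Γ ∧ V = iv Γ ++ Q ∧ Red (P ++ Q)) ∨
      ∃ (t : Bool) (a b : G), U = P ++ [⟨t, a⟩] ++ Γ ∧ V = iv Γ ++ [⟨t, b⟩] ++ Q ∧
        Red (P ++ [⟨t, a * b⟩] ++ Q) := by
  induction U using List.reverseRecOn with
  | nil =>
    intro V _ hV
    exact ⟨[], [], V, Or.inl ⟨rfl, rfl, hV⟩⟩
  | append_singleton U x ih =>
    intro V hU hV
    rcases V with _ | ⟨y, V⟩
    · refine ⟨U ++ [x], [], [], Or.inl ⟨?_, rfl, ?_⟩⟩
      · rw [List.append_nil]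
      · rw [List.append_nil]
        exact hU
    · by_cases h1 : x.1 = y.1
      · obtain ⟨t, a⟩ := x
        obtain ⟨t', b⟩ := y
        change t = t' at h1
        subst h1
        by_cases h2 : a * b = 1
        · have hV' : Red V := Red.right (l := [⟨t, b⟩]) hV
          obtain ⟨P, Γ, Q, h⟩ := ih V (Red.left hU) hV'
          have hb : b = a⁻¹ := (inv_eq_of_mul_eq_one_right h2).symm
          have hiv : iv (Γ ++ [(⟨t, a⟩ : Lt G)]) = ⟨t, b⟩ :: iv Γ := by
            unfold iv
            rw [List.map_append, List.reverse_append, hb]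
            rfl
          refine ⟨P, Γ ++ [⟨t, a⟩], Q, ?_⟩
          rw [hiv]
          rcases h with ⟨h3, h4, h5⟩ | ⟨t', a', b', h3, h4, h5⟩
          · left
            refine ⟨?_, ?_, h5⟩
            · rw [h3, List.append_assoc]
            · rw [h4, List.cons_append]
          · right
            refine ⟨t', a', b', ?_, ?_, h5⟩
            · rw [h3, List.append_assoc]
            · rw [h4]
              simp only [List.cons_append]
        · refine ⟨U, [], V, Or.inr ⟨t, a, b, ?_, rfl, ?_⟩⟩
          · rw [List.append_nil]
          · rw [red_iff] at hU hV ⊢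
            refine ⟨fun z hz => ?_, ?_⟩
            · rw [List.mem_append, List.mem_append, List.mem_singleton] at hz
              rcases hz with (hz | hz) | hz
              · exact hU.1 z (List.mem_append_left _ hz)
              · rw [hz]
                exact h2
              · exact hV.1 z (List.mem_cons_of_mem _ hz)
            · have h3 := hU.2
              have h4 := hV.2
              rw [List.map_append] at h3
              rw [List.map_append, List.map_append]
              refine List.IsChain.append_overlap h3 ?_ (by simp)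
              exact h4
      · refine ⟨U ++ [x], [], y :: V, Or.inl ⟨?_, rfl, ?_⟩⟩
        · rw [List.append_nil]
        · refine ⟨fun z hz => ?_, ?_⟩
          · rcases List.mem_append.1 hz with hz | hz
            · exact hU.1 z hz
            · exact hV.1 z hz
          · rw [List.isChain_append]
            refine ⟨hU.2, hV.2, ?_⟩
            intro z hz w hw
            rw [List.getLast?_concat] at hz
            have h3 : x = z := Option.some.inj hz
            have h4 : y = w := Option.some.inj hw
            rw [← h3, ← h4]
            exact h1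

end lists

theorem red_red (x : Ga) : Red (red x) := by
  classical
  exact ⟨(Monoid.CoprodI.Word.equiv x).ne_one, (Monoid.CoprodI.Word.equiv x).chain_ne⟩

theorem ev_red (x : Ga) : ev (red x) = x := by
  classical
  exact Monoid.CoprodI.Word.equiv.symm_apply_apply x

theorem red_ev {l : List (Lt A)} (h : Red l) : red (ev l) = l :=
  red_inj (red_red _) h (ev_red _)

theorem nrm_pos {a : A} (h : a ≠ 1) : 1 ≤ nrm a := by
  by_contra hcon
  apply h
  have h1 : nrm a = 0 := by omega
  unfold nrm at h1
  rw [Finset.sum_eq_zero_iff] at h1
  have h2 : Multiplicative.toAdd a = 0 := by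
    funext i
    exact Int.natAbs_eq_zero.1 (h1 i (Finset.mem_univ i))
  exact h2

theorem nrm_inv (a : A) : nrm a⁻¹ = nrm a := by
  unfold nrm
  refine Finset.sum_congr rfl fun i _ => ?_
  change (-(cd a i)).natAbs = _
  exact Int.natAbs_neg _

theorem length_le (x : Ga) : (red x).length ≤ L x := by
  have h : ∀ l : List (Lt A), (∀ y ∈ l, y.2 ≠ 1) → l.length ≤ (l.map (fun s => nrm s.2)).sum := by
    intro l
    induction l with
    | nil => intro _; exact le_rfl
    | cons y l ih =>
      intro hl
      rw [List.length_cons, List.map_cons, List.sum_cons]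
      have h1 := ih fun z hz => hl z (List.mem_cons_of_mem _ hz)
      have h2 := nrm_pos (hl y List.mem_cons_self)
      omega
  exact h _ (red_red x).1

theorem nrm_le (x : Ga) (s : Lt A) (h : s ∈ red x) : nrm s.2 ≤ L x :=
  List.single_le_sum (fun _ _ => Nat.zero_le _) _ (List.mem_map_of_mem (f := fun s => nrm s.2) h)

theorem t_CANC : S_CANC := by
  refine ⟨fun i x => ev ((red x).take i), fun a b => ?_⟩
  have ha := ev_red a
  have hb := ev_red b
  have hla := length_le a
  have hna := nrm_le a
  obtain ⟨P, Γ, Q, h⟩ := cancel (red a) (red b) (red_red a) (red_red b)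
  rcases h with ⟨h1, h2, h3⟩ | ⟨t, a₀, b₀, h1, h2, h3⟩
  · have hab : a * b = ev (P ++ Q) := by
      rw [← ha, ← hb, h1, h2, ev_append, ev_append, ev_append, ev_iv]
      group
    refine ⟨P.length, Γ.length, true, 1, ?_, ?_, ?_, ?_, ?_⟩
    · rw [h1, List.length_append] at hla
      omega
    · rw [h1, List.length_append] at hla
      omega
    · have h4 : nrm (1 : A) = 0 := by
        unfold nrm cd
        exact Finset.sum_eq_zero fun i _ => rfl
      rw [h4]
      exact Nat.zero_le _
    · change ev ((red a).take P.length) = ev ((red (a * b)).take P.length)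
      rw [hab, red_ev h3, h1, List.take_left, List.take_left]
    · change ev ((red b).take Γ.length) * inc true 1 = a⁻¹ * ev ((red a).take P.length)
      rw [map_one, mul_one, h2, ← iv_length Γ, List.take_left, ev_iv]
      have haU : a⁻¹ = (ev (P ++ Γ))⁻¹ := by rw [← h1, ha]
      rw [haU, h1, List.take_left, ev_append]
      group
  · have hab : a * b = ev (P ++ [⟨t, a₀ * b₀⟩] ++ Q) := by
      rw [← ha, ← hb, h1, h2]
      simp only [ev_append, ev_iv, ev_cons, ev_nil, map_mul]
      group
    refine ⟨P.length, Γ.length, t, a₀⁻¹, ?_, ?_, ?_, ?_, ?_⟩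
    · rw [h1, List.length_append, List.length_append] at hla
      omega
    · rw [h1, List.length_append, List.length_append] at hla
      omega
    · rw [nrm_inv]
      refine hna ⟨t, a₀⟩ ?_
      rw [h1]
      simp
    · change ev ((red a).take P.length) = ev ((red (a * b)).take P.length)
      rw [hab, red_ev h3, h1, List.append_assoc, List.append_assoc, List.take_left,
        List.take_left]
    · change ev ((red b).take Γ.length) * inc t a₀⁻¹ = a⁻¹ * ev ((red a).take P.length)
      rw [h2, ← iv_length Γ, List.append_assoc, List.take_left, ev_iv]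
      have haU : a⁻¹ = (ev (P ++ [⟨t, a₀⟩] ++ Γ))⁻¹ := by rw [← h1, ha]
      rw [haU, h1, List.append_assoc, List.take_left]
      simp only [ev_append, ev_cons, ev_nil, map_inv]
      group

end Pool.Agent.N413.FGCANC
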